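import Pool.Agent.Helper91.KZ.StM

/-!
# KZ, module DVC: tensor products with centralizers
-/

namespace Pool.Agent.Helper45.KZ

open Pool.Agent.Helper91.KZ Polynomial TensorProduct

universe u

noncomputable section

/-- a ring which embeds into an algebraic algebra without zero divisors -/
lemma dv_of_inj {E R S : Type u} [Field E] [Ring R] [Ring S] [Algebra E S] (hS : DV S)
    (hint : ∀ x : S, IsIntegral E x) (g : E →+* R) (Ψ : R →+* S) (hinj : Function.Injective Ψ)
    (hg : Ψ.comp g = algebraMap E S) : DV R := by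
  have hnt : Nontrivial S := ⟨⟨1, 0, hS.1⟩⟩
  have hnz : NoZeroDivisors S := ⟨fun {a b} hab => by
    by_cases ha : a = 0
    · exact Or.inl ha
    · right
      obtain ⟨a', rfl⟩ := hS.2 a ha
      exact (Units.mul_right_eq_zero a').mp hab⟩
  have hdom : IsDomain S := NoZeroDivisors.to_isDomain S
  refine ⟨fun h => hS.1 ?_, fun x hx => ?_⟩
  · rw [← map_one Ψ, h, map_zero]
  · have hx' : Ψ x ≠ 0 := fun h => hx (hinj (by rw [h, map_zero]))
    set s := Ψ x with hs
    have hc : (minpoly E s).coeff 0 ≠ 0 := minpoly.coeff_zero_ne_zero (hint s) hx'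
    set c := (minpoly E s).coeff 0 with hcdef
    let q : E[X] := C (-c⁻¹) * (minpoly E s).divX
    have h0 : aeval s (minpoly E s).divX * s = - algebraMap E S c := by
      have h1 := minpoly.aeval E s
      rw [← divX_mul_X_add (minpoly E s), map_add, map_mul, aeval_X, aeval_C] at h1
      exact eq_neg_of_add_eq_zero_left h1
    have h1 : aeval s q * s = 1 := by
      rw [map_mul, aeval_C, mul_assoc, h0, mul_neg, ← map_mul, ← map_neg]
      have : -(-c⁻¹ * c) = 1 := by
        rw [neg_mul, neg_neg, inv_mul_cancel₀ hc]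
      rw [this, map_one]
    have h2 : s * aeval s q = 1 := by
      obtain ⟨s', hs'⟩ := hS.2 s hx'
      have h3 : aeval s q = ↑s'⁻¹ := by
        rw [← hs'] at h1 ⊢
        exact (Units.eq_inv_of_mul_eq_one_right h1)
      rw [h3, ← hs', Units.mul_inv]
    let y : R := eval₂ g x q
    have hy : Ψ y = aeval s q := by
      change Ψ (eval₂ g x q) = aeval s q
      rw [hom_eval₂, hg, aeval_def]
    exact ⟨⟨x, y, hinj (by rw [map_mul, hy, map_one]; exact h2),
      hinj (by rw [map_mul, hy, map_one]; exact h1)⟩, rfl⟩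

theorem st_DVC (hCEN : ST_CEN.{u}) (hUNI : ST_UNI.{u}) (hALG : ST_ALG.{u}) : ST_DVC.{u} := by
  intro E K Δ Z C _ _ _ _ _ _ _ _ _ _ _ _ hDA hDV hiZ hCor
  classical
  obtain ⟨iZ⟩ := hiZ
  obtain ⟨C', _, _, j', hj', hjm, _, hCor'⟩ := hCEN E Δ Z iZ hDA
  obtain ⟨_, ⟨e⟩⟩ := hUNI Z (Z ⊗[E] Δ) C' C _ _ hCor'.2 hCor.2
  let j : C →+* Δ := j'.comp e.symm.toRingEquiv.toRingHom
  have hj : Function.Injective j := hj'.comp e.symm.injective
  have hjz : ∀ z : Z, j (algebraMap Z C z) = iZ z := by
    intro z
    change j' (e.symm (algebraMap Z C z)) = iZ z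
    rw [AlgEquiv.commutes, hjm]
  let _ : Algebra E C := Algebra.compHom C (algebraMap E Z)
  have : IsScalarTower E Z C := IsScalarTower.of_algebraMap_eq (fun _ => rfl)
  let jE : C →ₐ[E] Δ :=
    { j with
      commutes' := fun a => by
        change j (algebraMap Z C (algebraMap E Z a)) = _
        rw [hjz, AlgHom.commutes] }
  have hint : ∀ x : K ⊗[E] Δ, IsIntegral E x := hALG E Δ K hDA.alg
  -- first map
  let f1 : Z ⊗[E] K →ₐ[Z] C ⊗[E] K :=
    Algebra.TensorProduct.map (Algebra.ofId Z C) (AlgHom.id E K)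
  let f2 : C →ₐ[Z] C ⊗[E] K := Algebra.TensorProduct.includeLeft
  have hf : ∀ (a : Z ⊗[E] K) (c : C), Commute (f1 a) (f2 c) := by
    intro a c
    induction a using TensorProduct.induction_on with
    | zero => rw [map_zero]; exact Commute.zero_left _
    | tmul z k =>
      change Commute ((algebraMap Z C z) ⊗ₜ[E] k) (c ⊗ₜ[E] (1 : K))
      rw [commute_iff_eq, Algebra.TensorProduct.tmul_mul_tmul, Algebra.TensorProduct.tmul_mul_tmul,
        one_mul, mul_one, Algebra.commutes]
    | add a b ha hb => rw [map_add]; exact ha.add_left hb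
  let l : (Z ⊗[E] K) ⊗[Z] C →ₐ[Z] C ⊗[E] K := Algebra.TensorProduct.lift f1 f2 hf
  let L : (Z ⊗[E] K) ⊗[Z] C ≃ₗ[Z] C ⊗[E] K :=
    (TensorProduct.comm Z (Z ⊗[E] K) C).trans
      (TensorProduct.AlgebraTensorModule.cancelBaseChange E Z Z C K)
  have hlL : ∀ x, l x = L x := by
    intro x
    induction x using TensorProduct.induction_on with
    | zero => rw [map_zero, map_zero]
    | tmul a c =>
      induction a using TensorProduct.induction_on with
      | zero => rw [TensorProduct.zero_tmul, map_zero, map_zero]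
      | tmul z k =>
        change f1 (z ⊗ₜ k) * f2 c = TensorProduct.AlgebraTensorModule.cancelBaseChange E Z Z C K
          (c ⊗ₜ (z ⊗ₜ k))
        rw [TensorProduct.AlgebraTensorModule.cancelBaseChange_tmul]
        change (algebraMap Z C z ⊗ₜ[E] k) * (c ⊗ₜ[E] (1 : K)) = _
        rw [Algebra.TensorProduct.tmul_mul_tmul, mul_one, Algebra.smul_def]
      | add a b ha hb => rw [TensorProduct.add_tmul, map_add, map_add, ha, hb]
    | add a b ha hb => rw [map_add, map_add, ha, hb]
  have hl : Function.Injective l := by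
    intro x y hxy
    rw [hlL, hlL] at hxy
    exact L.injective hxy
  have hmap : Function.Injective (Algebra.TensorProduct.map jE (AlgHom.id E K)) := by
    have h1 : Function.Injective (jE.toLinearMap.rTensor K) :=
      Module.Flat.rTensor_preserves_injective_linearMap _ hj
    exact h1
  constructor
  · let Ψ : (Z ⊗[E] K) ⊗[Z] C →+* K ⊗[E] Δ :=
      ((Algebra.TensorProduct.comm E Δ K).toAlgHom.toRingHom.comp
        (Algebra.TensorProduct.map jE (AlgHom.id E K)).toRingHom).comp l.toRingHom
    refine dv_of_inj hDV hint ((algebraMap Z ((Z ⊗[E] K) ⊗[Z] C)).comp (algebraMap E Z)) Ψ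
      (((Algebra.TensorProduct.comm E Δ K).injective.comp hmap).comp hl) ?_
    ext a
    change (Algebra.TensorProduct.comm E Δ K) ((Algebra.TensorProduct.map jE (AlgHom.id E K))
      (l (algebraMap Z _ (algebraMap E Z a)))) = _
    rw [AlgHom.commutes, Algebra.TensorProduct.algebraMap_apply]
    change (Algebra.TensorProduct.comm E Δ K) ((Algebra.TensorProduct.map jE (AlgHom.id E K))
      ((algebraMap E C a) ⊗ₜ[E] (1 : K))) = _
    rw [← Algebra.TensorProduct.algebraMap_apply, AlgHom.commutes, AlgEquiv.commutes]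
  · let Ψ : Z ⊗[E] K →ₐ[E] K ⊗[E] Δ :=
      (Algebra.TensorProduct.comm E Δ K).toAlgHom.comp
        (Algebra.TensorProduct.map iZ (AlgHom.id E K))
    have hmap2 : Function.Injective (Algebra.TensorProduct.map iZ (AlgHom.id E K)) := by
      have h1 : Function.Injective (iZ.toLinearMap.rTensor K) :=
        Module.Flat.rTensor_preserves_injective_linearMap _ iZ.injective
      exact h1
    refine dv_of_inj hDV hint (algebraMap E (Z ⊗[E] K)) Ψ.toRingHom
      ((Algebra.TensorProduct.comm E Δ K).injective.comp hmap2) ?_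
    ext a
    exact Ψ.commutes a

end

end Pool.Agent.Helper45.KZ
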