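import Pool.Agent.Helper91.KZ.StM

/-!
# KZ, modules KPE and CYD
-/

namespace Pool.Agent.Helper45.KZ

open Pool.Agent.Helper91.KZ Polynomial TensorProduct

universe u

noncomputable section

theorem st_KPE (hFDG : ST_FDG.{u}) : ST_KPE.{u} := by
  intro E D M Δ _ _ _ _ _ _ _ _ _ _ p κ s hDA hK hCor x hx
  obtain ⟨hDM, hs, ⟨e⟩⟩ := hCor
  have hne : Nonempty (Fin s) := ⟨⟨0, hs⟩⟩
  let φ : Δ →ₐ[M] M ⊗[E] D := e.symm.toAlgHom.comp (Matrix.scalarAlgHom (Fin s) M)
  have hφ : Function.Injective φ := by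
    intro a b hab
    have h1 : Matrix.scalar (Fin s) a = Matrix.scalar (Fin s) b := e.symm.injective hab
    exact Matrix.scalar_inj.mp h1
  have hmin : minpoly M (φ x) = minpoly M x := minpoly.algHom_eq φ hφ x
  have hint : IsIntegral M (φ x) := (hDM.alg x).map φ
  obtain ⟨w, hw⟩ := hFDG E D hDA.alg M (φ x) hint (by
    rw [hmin]
    exact minpoly.irreducible (hDM.alg x))
  apply hK w
  have h2 : dg M (φ x) = dg M x := by
    unfold dg
    rw [hmin]
  rw [← h2] at hx
  exact hx.trans hw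

theorem st_CYD (hCS1 : ST_CS1.{u}) (hCS2 : ST_CS2.{u}) : ST_CYD.{u} := by
  intro E K _ _ _ _ p j hp hC
  induction j generalizing K with
  | zero =>
    have hC' : Module.finrank E K = 1 := hC
    have hfin : FiniteDimensional E K := Module.finite_of_finrank_pos (by rw [hC']; exact one_pos)
    refine ⟨⟨fun x => Algebra.IsIntegral.isIntegral x, fun x _ => ?_⟩, by simp, hfin, by simp [hC']⟩
    have h1 : (⊥ : Subalgebra E K) = ⊤ := Subalgebra.bot_eq_top_iff_finrank_eq_one.mpr hC'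
    have h2 : x ∈ (⊥ : Subalgebra E K) := by rw [h1]; exact Algebra.mem_top
    exact Algebra.mem_bot.mp h2
  | succ j ih =>
    obtain ⟨K₁, K₂, _, _, _, _, h1, h2, _, ⟨e⟩⟩ := hC
    have h3 := ih K₁ h1
    have hS1 := (hCS2 E).2 K₁ _ h3
    have hS2 := (hCS2 E).2 K₂ _ h2
    have hS := (hCS1 E).1 K₁ K₂ hS1 hS2
    have f1 := h3.2.2.1
    have f2 := h2.2.2.1
    have hfin : FiniteDimensional E K := Module.Finite.equiv e.toLinearEquiv
    refine ⟨⟨fun x => Algebra.IsIntegral.isIntegral x, fun x hx => ?_⟩, pow_pos hp.pos _, hfin, ?_⟩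
    · obtain ⟨a, ha⟩ := hS.cen (e.symm x) (fun y => by
        apply e.injective
        rw [map_mul, map_mul, AlgEquiv.apply_symm_apply]
        exact hx (e y))
      refine ⟨a, ?_⟩
      apply e.symm.injective
      rw [AlgEquiv.commutes, ha]
    · rw [← e.toLinearEquiv.finrank_eq, Module.finrank_tensorProduct, h3.2.2.2, h2.2.2.2]
      ring

end

end Pool.Agent.Helper45.KZ
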