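import Pool.Agent.Helper91.KZ.StT

/-!
# KZ, modules RSC and TWY: cocycle identities
-/

namespace Pool.Agent.Helper45.KZ

open Pool.Agent.Helper91.KZ Polynomial TensorProduct

universe u

noncomputable section

theorem st_RSC : ST_RSC.{u} := by
  intro E M N _ _ _ _ _ _ _ a b
  refine ⟨fun h => ⟨fun g k => h.a0 _ _, fun g k l => ?_⟩, fun h => ?_⟩
  · exact h.co (g.restrictScalars E) (k.restrictScalars E) (l.restrictScalars E)
  · obtain ⟨β, hβ, hβ'⟩ := h
    exact ⟨fun g => β (g.restrictScalars E), fun g => hβ _, fun g k =>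
      hβ' (g.restrictScalars E) (k.restrictScalars E)⟩

theorem st_TWY : ST_TWY.{u} := by
  intro E N X _ _ _ _ _ T n a hT
  have hnt : Nontrivial T.V := T.nt
  refine ⟨hT.a0, fun g h k => ?_⟩
  obtain ⟨w, hw⟩ := exists_ne (0 : T.V)
  obtain ⟨v, hv⟩ := (T.R (g * h * k)).surjective w
  have co : ∀ g h (v : T.V), T.R g (T.R h v) = a g h • T.R (g * h) v := by
    intro g h v
    rw [T.co, hT.ua, T.bn]
  have h1 : T.R g (T.R h (T.R k v)) = (g (a h k) * a g (h * k)) • w := by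
    rw [co h k v, T.rn, co, smul_smul, ← hv, mul_assoc]
  have h2 : T.R g (T.R h (T.R k v)) = (a g h * a (g * h) k) • w := by
    rw [co g h, co, smul_smul, hv]
  have h3 : (g (a h k) * a g (h * k) - a g h * a (g * h) k) • w = 0 := by
    rw [sub_smul, ← h1, ← h2, sub_self]
  rcases smul_eq_zero.mp h3 with h4 | h4
  · exact sub_eq_zero.mp h4
  · exact absurd h4 hw

theorem st_TWK (hTWE : ST_TWE.{u}) (hTWB : ST_TWB.{u}) : ST_TWK.{u} := by
  intro E N K _ _ _ _ _ _ _ n hCS hMI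
  have hDA : DA N N := ⟨fun x => isIntegral_algebraMap (A := N) (x := x), fun x _ => ⟨x, rfl⟩⟩
  obtain ⟨T⟩ := hTWE E N K N n ⟨hDA, hMI⟩
  obtain ⟨⟨e⟩, ⟨φ⟩, _, _, hU⟩ := hTWB E N K N n T ⟨hDA, hMI⟩
  have hsj : Function.Surjective (algebraMap N T.B) := by
    intro b
    refine ⟨(e b).unop, e.injective ?_⟩
    rw [AlgEquiv.commutes]
    rfl
  choose a ha using fun g h => hsj (T.U g h)
  refine ⟨T, a, ⟨fun g h h0 => hU g h ?_, fun g h => (ha g h).symm, hsj, hMI.1, ?_⟩⟩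
  · rw [← ha g h, h0, map_zero]
  · rw [φ.finrank_eq, Module.finrank_fin_fun]

end

end Pool.Agent.Helper45.KZ
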