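import Pool.Agent.Helper91.KZ.StT

/-!
# KZ, module TWB: the endomorphism ring of a twisted module
-/

namespace Pool.Agent.Helper45.KZ

open Pool.Agent.Helper91.KZ Polynomial TensorProduct

universe u

noncomputable section

section rep

variable {E N X : Type u} [Field E] [Field N] [Algebra E N] [Ring X] [Algebra E X]

/-- the representation of `N ⊗ X` on the twisted module -/
lemma exists_rep (T : TW E N X) : ∃ ρ : N ⊗[E] X →ₐ[N] Module.End N T.V,
    ∀ (n : N) (x : X) (v : T.V), ρ (n ⊗ₜ[E] x) v = n • x • v := by
  let _ : Algebra E (Module.End N T.V) := Algebra.compHom _ (algebraMap E N)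
  have : IsScalarTower E N (Module.End N T.V) := IsScalarTower.of_algebraMap_eq (fun _ => rfl)
  let g : X →ₐ[E] Module.End N T.V :=
    { toFun := fun x =>
        { toFun := fun v => x • v
          map_add' := fun a b => smul_add x a b
          map_smul' := fun n v => (T.nx n x v).symm }
      map_one' := by
        ext v
        exact one_smul X v
      map_mul' := fun a b => by
        ext v
        exact mul_smul a b v
      map_zero' := by
        ext v
        exact zero_smul X v
      map_add' := fun a b => by
        ext v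
        exact add_smul a b v
      commutes' := fun e => by
        ext v
        exact (T.ee e v).symm }
  refine ⟨Algebra.TensorProduct.lift (Algebra.ofId N _) g (fun n x => ?_), ?_⟩
  · ext v
    change n • x • v = x • n • v
    exact T.nx n x v
  · intro n x v
    rw [Algebra.TensorProduct.lift_tmul]
    rfl

end rep

section col

variable {N Δ V : Type u} [Field N] [DivisionRing Δ] [Algebra N Δ] [AddCommGroup V] [Module N V]
  [Nontrivial V]

/-- the matrix with first column `w` -/
def colM {r : ℕ} (o : Fin r) (w : Fin r → Δ) : Matrix (Fin r) (Fin r) Δ :=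
  fun i j => if j = o then w i else 0

lemma colM_mul {r : ℕ} (o : Fin r) (m : Matrix (Fin r) (Fin r) Δ) (w : Fin r → Δ) :
    m * colM o w = colM o (m.mulVec w) := by
  ext i j
  simp only [Matrix.mul_apply, colM, Matrix.mulVec, dotProduct]
  by_cases h : j = o
  · simp [h]
  · simp [h]

lemma colM_mulVec {r : ℕ} (o : Fin r) (w : Fin r → Δ) (d : Δ) :
    (colM o w).mulVec (Pi.single o d) = fun i => w i * d := by
  ext i
  simp [colM]

lemma colM_add {r : ℕ} (o : Fin r) (w w' : Fin r → Δ) :
    colM o (w + w') = colM o w + colM o w' := by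
  ext i j
  simp only [colM, Matrix.add_apply, Pi.add_apply]
  split <;> simp

lemma colM_smul {r : ℕ} (o : Fin r) (n : N) (w : Fin r → Δ) :
    colM o (n • w) = n • colM o w := by
  ext i j
  simp only [colM, Matrix.smul_apply, Pi.smul_apply]
  split <;> simp

/-- a simple module over a matrix algebra is the module of columns -/
lemma exists_col {r : ℕ} (hr : 0 < r) (α : Matrix (Fin r) (Fin r) Δ →ₐ[N] Module.End N V)
    (sm : ∀ W : AddSubgroup V, (∀ m : Matrix (Fin r) (Fin r) Δ, ∀ w ∈ W, α m w ∈ W) →
      W = ⊥ ∨ W = ⊤) :
    ∃ φ : (Fin r → Δ) ≃ₗ[N] V, ∀ (m : Matrix (Fin r) (Fin r) Δ) (w : Fin r → Δ),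
      φ (m.mulVec w) = α m (φ w) := by
  classical
  let o : Fin r := ⟨0, hr⟩
  -- a nonzero vector in the image of the idempotent
  have h1 : ∃ v : V, α (Matrix.single o o 1) v ≠ 0 := by
    by_contra hcon
    push Not at hcon
    obtain ⟨v, hv⟩ := exists_ne (0 : V)
    apply hv
    have e1 : (1 : Matrix (Fin r) (Fin r) Δ) =
        ∑ i, Matrix.single i o 1 * (Matrix.single o o 1 * Matrix.single o i 1) := by
      ext a b
      rw [Matrix.sum_apply, Finset.sum_eq_single a]
      · by_cases hab : a = b
        · subst hab
          simp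
        · simp [hab]
      · intro i _ hi
        simp [hi]
      · intro h
        exact absurd (Finset.mem_univ _) h
    have e2 : v = α 1 v := by simp
    rw [e2, e1, map_sum, LinearMap.sum_apply]
    refine Finset.sum_eq_zero fun i _ => ?_
    rw [map_mul, map_mul, Module.End.mul_apply, Module.End.mul_apply, hcon, map_zero]
  obtain ⟨v, hv⟩ := h1
  set v0 : V := α (Matrix.single o o 1) v with hv0
  have hv0e : α (Matrix.single o o 1) v0 = v0 := by
    rw [hv0, ← Module.End.mul_apply, ← map_mul]
    simp
  let ψ : (Fin r → Δ) →ₗ[N] V :=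
    { toFun := fun w => α (colM o w) v0
      map_add' := fun a b => by rw [colM_add, map_add, LinearMap.add_apply]
      map_smul' := fun n a => by rw [colM_smul, map_smul, LinearMap.smul_apply, RingHom.id_apply] }
  have hψ : ∀ (m : Matrix (Fin r) (Fin r) Δ) (w : Fin r → Δ), ψ (m.mulVec w) = α m (ψ w) := by
    intro m w
    change α (colM o (m.mulVec w)) v0 = α m (α (colM o w) v0)
    rw [← colM_mul, map_mul, Module.End.mul_apply]
  have hinj : Function.Injective ψ := by
    rw [← LinearMap.ker_eq_bot, LinearMap.ker_eq_bot']
    intro w hw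
    by_contra hne
    obtain ⟨i, hi⟩ := Function.ne_iff.mp hne
    have hi' : w i ≠ 0 := hi
    have e3 : Matrix.single o i (w i)⁻¹ * colM o w = Matrix.single o o 1 := by
      ext a b
      rw [Matrix.mul_apply]
      simp only [Matrix.single_apply, colM]
      by_cases ha : o = a
      · by_cases hb : b = o
        · simp [ha, hb, hi']
        · have hb' : ¬ (o = b) := fun h => hb h.symm
          simp [hb, hb']
      · simp [ha]
    have e4 : α (Matrix.single o o 1) v0 = 0 := by
      rw [← e3, map_mul, Module.End.mul_apply]
      have : α (colM o w) v0 = 0 := hw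
      rw [this, map_zero]
    rw [hv0e] at e4
    exact hv e4
  have hsurj : Function.Surjective ψ := by
    rcases sm ψ.toAddMonoidHom.range (by
      rintro m _ ⟨w, rfl⟩
      exact ⟨m.mulVec w, hψ m w⟩) with h | h
    · exfalso
      have e5 : v0 ∈ ψ.toAddMonoidHom.range := by
        refine ⟨Pi.single o 1, ?_⟩
        change α (colM o (Pi.single o 1)) v0 = v0
        have : colM o (Pi.single o (1 : Δ)) = Matrix.single o o 1 := by
          ext a b
          simp only [colM, Matrix.single_apply, Pi.single_apply]
          by_cases hb : b = o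
          · by_cases ha : a = o
            · simp [ha, hb]
            · have ha' : ¬ (o = a) := fun h => ha h.symm
              simp [ha, ha', hb]
          · have hb' : ¬ (o = b) := fun h => hb h.symm
            simp [hb, hb']
        rw [this, hv0e]
      rw [h, AddSubgroup.mem_bot] at e5
      exact hv e5
    · intro y
      have : y ∈ ψ.toAddMonoidHom.range := by rw [h]; trivial
      obtain ⟨w, hw⟩ := this
      exact ⟨w, hw⟩
  exact ⟨LinearEquiv.ofBijective ψ ⟨hinj, hsurj⟩, hψ⟩

end col

section op

variable {N Δ : Type u} [Field N] [Ring Δ] [Algebra N Δ]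

lemma aeval_op (d : Δ) (p : N[X]) : aeval (MulOpposite.op d) p = MulOpposite.op (aeval d p) := by
  induction p using Polynomial.induction_on' with
  | add p q hp hq => rw [map_add, map_add, hp, hq, MulOpposite.op_add]
  | monomial n a =>
    rw [aeval_monomial, aeval_monomial, Algebra.commutes a (d ^ n), MulOpposite.op_mul,
      MulOpposite.op_pow, MulOpposite.algebraMap_apply]

lemma minpoly_congr {A B : Type u} [Ring A] [Algebra N A] [Ring B] [Algebra N B] (x : A) (y : B)
    (hx : IsIntegral N x) (h : ∀ p : N[X], aeval x p = 0 ↔ aeval y p = 0) :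
    minpoly N x = minpoly N y := by
  apply minpoly.unique
  · exact minpoly.monic hx
  · rw [← h]
    exact minpoly.aeval N x
  · intro q hq hq0
    exact minpoly.min N x hq ((h q).mpr hq0)

end op

theorem st_TWB : ST_TWB.{u} := by
  intro E N X Δ _ _ _ _ _ _ _ _ r T hC
  classical
  obtain ⟨hDA, hr, ⟨f⟩⟩ := hC
  obtain ⟨ρ, hρ⟩ := exists_rep T
  have : Nontrivial T.V := T.nt
  let α : Matrix (Fin r) (Fin r) Δ →ₐ[N] Module.End N T.V := ρ.comp f.symm.toAlgHom
  have hα : ∀ a : N ⊗[E] X, α (f a) = ρ a := by
    intro a
    change ρ (f.symm (f a)) = ρ a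
    rw [AlgEquiv.symm_apply_apply]
  -- stability
  have hstab : ∀ W : AddSubgroup T.V, (∀ m : Matrix (Fin r) (Fin r) Δ, ∀ w ∈ W, α m w ∈ W) →
      W = ⊥ ∨ W = ⊤ := by
    intro W hW
    refine T.sm W (fun n w hw => ?_) (fun x w hw => ?_)
    · have := hW (f (n ⊗ₜ 1)) w hw
      rw [hα, hρ, one_smul] at this
      exact this
    · have := hW (f (1 ⊗ₜ x)) w hw
      rw [hα, hρ, one_smul] at this
      exact this
  obtain ⟨φ, hφ⟩ := exists_col hr α hstab
  -- additive maps commuting with `N` and `X` commute with matrices
  have hcomm : ∀ h : T.V →+ T.V, (∀ (n : N) (v : T.V), h (n • v) = n • h v) →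
      (∀ (x : X) (v : T.V), h (x • v) = x • h v) → ∀ (a : N ⊗[E] X) (v : T.V),
      h (ρ a v) = ρ a (h v) := by
    intro h hn hx a v
    induction a using TensorProduct.induction_on with
    | zero => simp
    | tmul n x => rw [hρ, hρ, hn, hx]
    | add a b ha hb => rw [map_add, LinearMap.add_apply, map_add, ha, hb, LinearMap.add_apply]
  have hαρ : ∀ m : Matrix (Fin r) (Fin r) Δ, α m = ρ (f.symm m) := fun m => rfl
  let o : Fin r := ⟨0, hr⟩
  let D : T.B → Δ := fun b => φ.symm (b • φ (Pi.single o 1)) o
  have key : ∀ (b : T.B) (w : Fin r → Δ), φ.symm (b • φ w) = fun i => w i * D b := by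
    intro b w
    have hb : ∀ (m : Matrix (Fin r) (Fin r) Δ) (w : Fin r → Δ),
        φ.symm (b • φ (m.mulVec w)) = m.mulVec (φ.symm (b • φ w)) := by
      intro m w
      apply φ.injective
      rw [LinearEquiv.apply_symm_apply, hφ, hφ, LinearEquiv.apply_symm_apply, hαρ]
      have := hcomm (DistribSMul.toAddMonoidHom T.V b) (fun n v => (T.nb n b v).symm)
        (fun x v => (T.xb x b v).symm) (f.symm m) (φ w)
      exact this
    have h1 : φ.symm (b • φ (Pi.single o 1)) = Pi.single o (D b) := by
      have h2 := hb (colM o (Pi.single o 1)) (Pi.single o 1)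
      rw [colM_mulVec] at h2
      have h3 : (fun i => (Pi.single o (1 : Δ) : Fin r → Δ) i * 1) = Pi.single o 1 := by
        ext i
        simp
      rw [h3] at h2
      rw [h2]
      ext i
      simp only [colM, Matrix.mulVec, dotProduct]
      rw [Finset.sum_eq_single o]
      · by_cases hi : i = o
        · subst hi
          simp [D]
        · simp [hi]
      · intro j _ hj
        simp [hj]
      · intro h
        exact absurd (Finset.mem_univ _) h
    have h4 := hb (colM o w) (Pi.single o 1)
    rw [colM_mulVec, h1, colM_mulVec] at h4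
    have h5 : (fun i => w i * 1) = w := by
      ext i
      simp
    rw [h5] at h4
    exact h4
  have keyD : ∀ (b : T.B) (w : Fin r → Δ) (i : Fin r), φ.symm (b • φ w) i = w i * D b := by
    intro b w i
    rw [key]
  let e0 : T.B →ₐ[N] Δᵐᵒᵖ :=
    { toFun := fun b => MulOpposite.op (D b)
      map_one' := by
        change MulOpposite.op (φ.symm ((1 : T.B) • φ (Pi.single o 1)) o) = 1
        rw [one_smul, LinearEquiv.symm_apply_apply]
        simp
      map_mul' := fun a b => by
        change MulOpposite.op (φ.symm ((a * b) • φ (Pi.single o 1)) o) = _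
        rw [mul_smul]
        have h1 : b • φ (Pi.single o 1) = φ (φ.symm (b • φ (Pi.single o 1))) := by
          rw [LinearEquiv.apply_symm_apply]
        rw [h1, keyD, ← MulOpposite.op_mul]
      map_zero' := by
        change MulOpposite.op (φ.symm ((0 : T.B) • φ (Pi.single o 1)) o) = 0
        rw [zero_smul, map_zero]
        simp
      map_add' := fun a b => by
        change MulOpposite.op (φ.symm ((a + b) • φ (Pi.single o 1)) o) = _
        rw [add_smul, map_add, Pi.add_apply, MulOpposite.op_add]
      commutes' := fun n => by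
        change MulOpposite.op (φ.symm (algebraMap N T.B n • φ (Pi.single o 1)) o) = _
        rw [T.bn, ← map_smul, LinearEquiv.symm_apply_apply, MulOpposite.algebraMap_apply]
        simp [Algebra.algebraMap_eq_smul_one] }
  have he0 : Function.Bijective e0 := by
    refine ⟨e0.toRingHom.injective, ?_⟩
    intro d
    let g : T.V →+ T.V :=
      { toFun := fun v => φ (fun i => φ.symm v i * d.unop)
        map_zero' := by
          have : (fun i => φ.symm (0 : T.V) i * d.unop) = 0 := by
            ext i
            simp
          rw [this, map_zero]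
        map_add' := fun a b => by
          rw [← map_add]
          apply congrArg
          ext i
          simp [add_mul] }
    have gdef : ∀ v, g v = φ (fun i => φ.symm v i * d.unop) := fun v => rfl
    have gα : ∀ (m : Matrix (Fin r) (Fin r) Δ) (v : T.V), g (α m v) = α m (g v) := by
      intro m v
      obtain ⟨w, rfl⟩ := φ.surjective v
      rw [← hφ, gdef, gdef, LinearEquiv.symm_apply_apply, LinearEquiv.symm_apply_apply, ← hφ]
      apply congrArg
      ext i
      simp only [Matrix.mulVec, dotProduct, Finset.sum_mul, mul_assoc]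
    obtain ⟨b, hb⟩ := T.full g (fun n v => by
        have := gα (f (n ⊗ₜ 1)) v
        rw [hα, hρ, hρ, one_smul, one_smul] at this
        exact this) (fun x v => by
        have := gα (f (1 ⊗ₜ x)) v
        rw [hα, hρ, hρ, one_smul, one_smul] at this
        exact this)
    refine ⟨b, ?_⟩
    change MulOpposite.op (φ.symm (b • φ (Pi.single o 1)) o) = d
    rw [← hb, gdef, LinearEquiv.symm_apply_apply, LinearEquiv.symm_apply_apply]
    simp
  let e : T.B ≃ₐ[N] Δᵐᵒᵖ := AlgEquiv.ofBijective e0 he0
  have hae : ∀ (x : T.B) (p : N[X]), e (aeval x p) = MulOpposite.op (aeval (e x).unop p) := by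
    intro x p
    rw [← aeval_op, MulOpposite.op_unop]
    exact (Polynomial.aeval_algHom_apply e.toAlgHom x p).symm
  have hzero : ∀ (x : T.B) (p : N[X]), aeval x p = 0 ↔ aeval (e x).unop p = 0 := by
    intro x p
    constructor
    · intro h
      have := hae x p
      rw [h, map_zero] at this
      exact MulOpposite.op_injective this.symm
    · intro h
      have := hae x p
      rw [h, MulOpposite.op_zero] at this
      exact (map_eq_zero_iff e e.injective).mp this
  have hint : ∀ x : T.B, IsIntegral N x := by
    intro x
    obtain ⟨p, hp, hp0⟩ := hDA.alg (e x).unop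
    exact ⟨p, hp, (hzero x p).mpr hp0⟩
  refine ⟨⟨e⟩, ⟨φ.symm⟩, ⟨hint, ?_⟩, ?_, ?_⟩
  · intro x hx
    obtain ⟨n, hn⟩ := hDA.cen (e x).unop (fun y => by
      have h1 := congrArg e (hx (e.symm (MulOpposite.op y)))
      rw [map_mul, map_mul, AlgEquiv.apply_symm_apply] at h1
      have h2 := congrArg MulOpposite.unop h1
      rw [MulOpposite.unop_mul, MulOpposite.unop_mul, MulOpposite.unop_op] at h2
      exact h2.symm)
    refine ⟨n, ?_⟩
    apply e.injective
    rw [AlgEquiv.commutes, MulOpposite.algebraMap_apply, hn, MulOpposite.op_unop]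
  · intro p κ hK x hx
    apply hK (e x).unop
    have : dg N x = dg N (e x).unop := by
      unfold dg
      rw [minpoly_congr x (e x).unop (hint x) (hzero x)]
    rw [← this]
    exact hx
  · intro g h h0
    obtain ⟨v, hv⟩ := exists_ne (0 : T.V)
    have h1 := T.co g h v
    rw [h0, zero_smul] at h1
    have h2 : T.R h v = 0 := (map_eq_zero_iff (T.R g) (T.R g).injective).mp h1
    exact hv ((map_eq_zero_iff (T.R h) (T.R h).injective).mp h2)

end

end Pool.Agent.Helper45.KZ
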