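import Pool.Agent.Helper45.KZ.TWB

/-!
# KZ, module TWI: uniqueness of the simple module
-/

namespace Pool.Agent.Helper45.KZ

open Pool.Agent.Helper91.KZ Polynomial TensorProduct

universe u

noncomputable section

lemma exists_colT {E N X Δ : Type u} [Field E] [Field N] [Algebra E N] [Ring X] [Algebra E X]
    [DivisionRing Δ] [Algebra N Δ] {r : ℕ} (hr : 0 < r)
    (f : N ⊗[E] X ≃ₐ[N] Matrix (Fin r) (Fin r) Δ) (T : TW E N X) :
    ∃ φ : (Fin r → Δ) ≃ₗ[N] T.V, ∀ (x : X) (w : Fin r → Δ),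
      φ ((f (1 ⊗ₜ x)).mulVec w) = x • φ w := by
  obtain ⟨ρ, hρ⟩ := exists_rep T
  have hnt : Nontrivial T.V := T.nt
  let α : Matrix (Fin r) (Fin r) Δ →ₐ[N] Module.End N T.V := ρ.comp f.symm.toAlgHom
  have hα : ∀ a : N ⊗[E] X, α (f a) = ρ a := by
    intro a
    change ρ (f.symm (f a)) = ρ a
    rw [AlgEquiv.symm_apply_apply]
  have hstab : ∀ W : AddSubgroup T.V, (∀ m : Matrix (Fin r) (Fin r) Δ, ∀ w ∈ W, α m w ∈ W) →
      W = ⊥ ∨ W = ⊤ := by
    intro W hW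
    refine T.sm W (fun n w hw => ?_) (fun x w hw => ?_)
    · have := hW (f (n ⊗ₜ 1)) w hw
      rw [hα, hρ, one_smul] at this
      exact this
    · have := hW (f (1 ⊗ₜ x)) w hw
      rw [hα, hρ, one_smul] at this
      exact this
  obtain ⟨φ, hφ⟩ := exists_col hr α hstab
  refine ⟨φ, fun x w => ?_⟩
  rw [hφ, hα, hρ, one_smul]

theorem st_TWI : ST_TWI.{u} := by
  intro E N X Δ _ _ _ _ _ _ _ _ r T T' hC
  obtain ⟨_, hr, ⟨f⟩⟩ := hC
  obtain ⟨φ, hφ⟩ := exists_colT hr f T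
  obtain ⟨φ', hφ'⟩ := exists_colT hr f T'
  refine ⟨(φ'.symm.trans φ).toAddEquiv, fun n v => ?_, fun x v => ?_⟩
  · exact map_smul (φ'.symm.trans φ) n v
  · change φ (φ'.symm (x • v)) = x • φ (φ'.symm v)
    rw [← hφ]
    apply congrArg
    apply φ'.injective
    rw [hφ', LinearEquiv.apply_symm_apply, LinearEquiv.apply_symm_apply]

end

end Pool.Agent.Helper45.KZ
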