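import Pool.Agent.Helper91.KZ.StT

/-!
# KZ, module TWM: twisted modules over matrices
-/

namespace Pool.Agent.Helper45.KZ

open Pool.Agent.Helper91.KZ Polynomial TensorProduct

universe u

noncomputable section

open Matrix.Module

variable {E N X Y : Type u} [Field E] [Field N] [Algebra E N] [Ring X]
  [Algebra E X] [Ring Y] [Algebra E Y]

/-- the module of columns -/
@[reducible] def modY {j : ℕ} (T : TW E N X) (f : Y ≃ₐ[E] Matrix (Fin j) (Fin j) X) :
    Module Y (Fin j → T.V) :=
  Module.compHom (Fin j → T.V) f.toRingEquiv.toRingHom

lemma modY_apply {j : ℕ} (T : TW E N X) (f : Y ≃ₐ[E] Matrix (Fin j) (Fin j) X) (y : Y)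
    (v : Fin j → T.V) (i : Fin j) :
    letI := modY T f
    (y • v) i = ∑ k, f y i k • v k := rfl

theorem st_TWM : ST_TWM.{u} := by
  intro E N X Y _ _ _ _ _ _ _ j T hMI
  classical
  obtain ⟨hj, ⟨f⟩⟩ := hMI
  have hne : Nonempty (Fin j) := ⟨⟨0, hj⟩⟩
  have hnt : Nontrivial T.V := T.nt
  let o : Fin j := ⟨0, hj⟩
  let _ : Module Y (Fin j → T.V) := modY T f
  have act : ∀ (y : Y) (v : Fin j → T.V) (i : Fin j), (y • v) i = ∑ k, f y i k • v k :=
    fun y v i => rfl
  have actS : ∀ (i k : Fin j) (x : X) (v : Fin j → T.V),
      (f.symm (Matrix.single i k x)) • v = Pi.single i (x • v k) := by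
    intro i k x v
    ext i'
    rw [act, AlgEquiv.apply_symm_apply, Finset.sum_eq_single k]
    · by_cases h : i' = i
      · subst h
        simp
      · have h' : ¬ (i = i') := fun hh => h hh.symm
        simp [h, h', Matrix.single_apply]
    · intro k' _ hk
      have hk' : ¬ (k = k') := fun hh => hk hh.symm
      simp [hk', Matrix.single_apply]
    · intro h
      exact absurd (Finset.mem_univ _) h
  let T' : TW E N Y :=
    { B := T.B
      V := Fin j → T.V
      R := fun g => AddEquiv.piCongrRight (fun _ => T.R g)
      U := T.U
      nt := inferInstance
      nx := fun n y v => by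
        ext i
        rw [Pi.smul_apply, act, act, Finset.smul_sum]
        exact Finset.sum_congr rfl fun k _ => T.nx n _ _
      nb := fun n b v => by
        ext i
        exact T.nb n b (v i)
      xb := fun y b v => by
        ext i
        rw [Pi.smul_apply, act, act, Finset.smul_sum]
        exact Finset.sum_congr rfl fun k _ => T.xb _ b _
      ee := fun e v => by
        ext i
        rw [Pi.smul_apply, act, AlgEquiv.commutes, Finset.sum_eq_single i]
        · rw [Matrix.algebraMap_matrix_apply, if_pos rfl]
          exact T.ee e (v i)
        · intro k _ hk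
          rw [Matrix.algebraMap_matrix_apply, if_neg (fun h => hk h.symm), zero_smul]
        · intro h
          exact absurd (Finset.mem_univ _) h
      bn := fun n v => by
        ext i
        exact T.bn n (v i)
      sm := fun W hN hY => by
        let W0 : AddSubgroup T.V :=
          W.comap (AddMonoidHom.single (fun _ : Fin j => T.V) o)
        have hW0 : ∀ v, v ∈ W0 ↔ (Pi.single o v : Fin j → T.V) ∈ W := fun v => Iff.rfl
        rcases T.sm W0 (fun n w hw => by
            rw [hW0] at hw ⊢
            have := hN n _ hw
            rw [← Pi.single_smul] at this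
            exact this) (fun x w hw => by
            rw [hW0] at hw ⊢
            have := hY (f.symm (Matrix.single o o x)) _ hw
            rw [actS, Pi.single_eq_same] at this
            exact this) with h | h
        · left
          rw [eq_bot_iff]
          intro w hw
          rw [AddSubgroup.mem_bot]
          ext k
          have h1 := hY (f.symm (Matrix.single o k 1)) _ hw
          rw [actS, one_smul, ← hW0, h, AddSubgroup.mem_bot] at h1
          exact h1
        · right
          rw [eq_top_iff]
          intro w _
          have h1 : w = ∑ k, Pi.single k (w k) := (Finset.univ_sum_single w).symm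
          rw [h1]
          refine W.sum_mem fun k _ => ?_
          have h2 : w k ∈ W0 := by rw [h]; trivial
          rw [hW0] at h2
          have h3 := hY (f.symm (Matrix.single k o 1)) _ h2
          rw [actS, one_smul, Pi.single_eq_same] at h3
          exact h3
      full := fun g hN hY => by
        let φ : T.V →+ T.V :=
          (Pi.evalAddMonoidHom (fun _ : Fin j => T.V) o).comp
            (g.comp (AddMonoidHom.single (fun _ : Fin j => T.V) o))
        have hφ : ∀ v, φ v = g (Pi.single o v) o := fun v => rfl
        obtain ⟨b, hb⟩ := T.full φ (fun n v => by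
          rw [hφ, hφ]
          have h1 := hN n (Pi.single o v)
          rw [← Pi.single_smul] at h1
          rw [h1]
          rfl) (fun x v => by
          rw [hφ, hφ]
          have h1 := hY (f.symm (Matrix.single o o x)) (Pi.single o v)
          rw [actS, actS, Pi.single_eq_same] at h1
          rw [h1, Pi.single_eq_same])
        refine ⟨b, fun v => ?_⟩
        have h2 : ∀ (k : Fin j) (w : T.V), g (Pi.single k w) = b • Pi.single k w := by
          intro k w
          have h3 := hY (f.symm (Matrix.single k o 1)) (Pi.single o w)
          rw [actS, actS, one_smul, one_smul, Pi.single_eq_same, ← hφ, hb] at h3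
          rw [h3, Pi.single_smul]
        have h1 : v = ∑ k, Pi.single k (v k) := (Finset.univ_sum_single v).symm
        rw [h1, map_sum, Finset.smul_sum]
        exact Finset.sum_congr rfl fun k _ => h2 k _
      rn := fun g n v => by
        ext i
        exact T.rn g n (v i)
      rx := fun g y v => by
        ext i
        change T.R g ((y • v) i) = _
        rw [act, act, map_sum]
        exact Finset.sum_congr rfl fun k _ => T.rx g _ _
      co := fun g h v => by
        ext i
        exact T.co g h (v i) }
  exact ⟨T', AlgEquiv.refl, fun g h => rfl⟩

end

end Pool.Agent.Helper45.KZ
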